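import Mathlib
import Pool.Agent.H75.Sl2Eq

/-! A Leonard pair of Racah type over an ordered field that does not come from the equitable
basis of `sl2`. -/

set_option autoImplicit false

namespace Pool.Agent.Results.MP_d63bef_al.RealRacah

open Matrix

section defs
variable {K : Type} [Field K] {n : ℕ}

/-- Irreducible tridiagonal matrices. -/
def IrrTri (M : Matrix (Fin n) (Fin n) K) : Prop :=
  ∀ i j : Fin n, ((i : ℕ) + 1 < j ∨ (j : ℕ) + 1 < i → M i j = 0) ∧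
    ((i : ℕ) + 1 = j ∨ (j : ℕ) + 1 = i → M i j ≠ 0)

/-- The matrix of the map `M` in the basis formed by the columns of `P`. -/
def inB (P : (Matrix (Fin n) (Fin n) K)ˣ) (M : Matrix (Fin n) (Fin n) K) :
    Matrix (Fin n) (Fin n) K := P⁻¹.val * M * P.val

def LeonardPair (A B : Matrix (Fin n) (Fin n) K) : Prop :=
  (∃ P, IrrTri (inB P A) ∧ (inB P B).IsDiag) ∧ ∃ P, IrrTri (inB P B) ∧ (inB P A).IsDiag

/-- The condition `beta = 2` on the eigenvalue sequence of `A`. -/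
def BetaTwo (A B : Matrix (Fin n) (Fin n) K) : Prop :=
  ∃ P, IrrTri (inB P B) ∧ (inB P A).IsDiag ∧ ∀ i j k l : Fin n, (j : ℕ) = i + 1 →
    (k : ℕ) = i + 2 → (l : ℕ) = i + 3 →
      (inB P A i i - inB P A l l) / (inB P A j j - inB P A k k) = 3

/-- `x, y, z` make `K ^ n` an irreducible `sl2`-module in the equitable basis. -/
def IrrMod (x y z : Matrix (Fin n) (Fin n) K) : Prop :=
  x * y - y * x = 2 • x + 2 • y ∧ y * z - z * y = 2 • y + 2 • z ∧ z * x - x * z = 2 • z + 2 • x ∧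
    ∀ W : Submodule K (Fin n → K), (∀ w ∈ W, x *ᵥ w ∈ W ∧ y *ᵥ w ∈ W ∧ z *ᵥ w ∈ W) → W = ⊥ ∨ W = ⊤

/-- `M` is a linear combination of `I, s, t, st`. -/
def InSpan (M s t : Matrix (Fin n) (Fin n) K) : Prop :=
  ∃ a b c e : K, M = a • (1 : Matrix (Fin n) (Fin n) K) + b • s + c • t + e • (s * t)

end defs

abbrev Mt (K : Type) := Matrix (Fin 4) (Fin 4) K
def A : Mt ℚ := !![15, 0, 0, 0; 1, 8, 0, 0; 0, 1, 3, 0; 0, 0, 1, 0]
def B : Mt ℚ := !![0, -6, 0, 0; 0, 3, -4, 0; 0, 0, 8, -6; 0, 0, 0, 15]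
def P1 : (Mt ℚ)ˣ := ⟨!![0, 0, 0, 1260; 0, 0, 40, 180; 0, 3, 8, 15; 1, 1, 1, 1],
  !![-1/360, 1/24, -1/3, 1; 1/180, -1/15, 1/3, 0; -1/280, 1/40, 0, 0; 1/1260, 0, 0, 0],
  by decide +kernel, by decide +kernel⟩
def P2 : (Mt ℚ)ˣ := ⟨!![1, -2, 3, -4; 0, 1, -4, 10; 0, 0, 5, -30; 0, 0, 0, 35],
  !![1, 2, 1, 2/5; 0, 1, 4/5, 2/5; 0, 0, 1/5, 6/35; 0, 0, 0, 1/35],
  by decide +kernel, by decide +kernel⟩

instance (M : Mt ℚ) : Decidable (IrrTri M) := by unfold IrrTri; infer_instance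
instance (M : Mt ℚ) : Decidable M.IsDiag := by unfold IsDiag Pairwise; infer_instance

variable {K : Type} [Field K] [CharZero K]

def f : Mt ℚ →+* Mt K := (algebraMap ℚ K).mapMatrix

theorem inB_f (P : (Mt ℚ)ˣ) (M : Mt ℚ) :
    inB (Units.map (f (K := K)).toMonoidHom P) (f M) = f (inB P M) := by simp [inB]

theorem tr (P : (Mt ℚ)ˣ) (S T : Mt ℚ) (h : IrrTri (inB P T) ∧ (inB P S).IsDiag) :
    IrrTri (inB (Units.map (f (K := K)).toMonoidHom P) (f T)) ∧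
      (inB (Units.map (f (K := K)).toMonoidHom P) (f S)).IsDiag := by
  rw [inB_f, inB_f]
  exact ⟨fun i j => by simpa [f] using h.1 i j, h.2.map (map_zero _)⟩

theorem nf (x y z : Mt K) (h : IrrMod x y z) : ∃ F : Mt K →ₐ[K] Mt K, (∀ M, (F M).trace = M.trace) ∧
    F x = !![-3, 0, 0, 0; 1, -1, 0, 0; 0, 1, 1, 0; 0, 0, 1, 3] ∧
      F y = !![3, 0, 0, 0; 0, 1, 0, 0; 0, 0, -1, 0; 0, 0, 0, -3] ∧
        F z = !![-3, -12, 0, 0; 0, -1, -16, 0; 0, 0, 1, -12; 0, 0, 0, 3] := by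
  obtain ⟨F, h0, h1, h2, h3⟩ := H75.Sl2Eq.normal_form (d := 3) x y z h.1 h.2.1 h.2.2.1 h.2.2.2
  simp only [map_add, Matrix.add_apply] at h2 h3
  have h4 := fun i j => eq_sub_of_add_eq (h2 i j)
  have h5 := fun i j => eq_sub_of_add_eq' (h3 i j)
  refine ⟨F, h0, ?_, ?_, ?_⟩ <;> ext i j <;> simp only [h1, h4, h5] <;> fin_cases i <;>
    fin_cases j <;> norm_num

theorem ev (t0 t1 t2 t3 : K) (h0 : t0 * (t0 - 3) * (t0 - 8) * (t0 - 15) = 0)
    (h1 : t1 * (t1 - 3) * (t1 - 8) * (t1 - 15) = 0) (h2 : t2 * (t2 - 3) * (t2 - 8) * (t2 - 15) = 0)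
    (h3 : t3 * (t3 - 3) * (t3 - 8) * (t3 - 15) = 0) (hs : t0 + t1 + t2 + t3 = 26)
    (hd : t0 - t3 = 3 * (t1 - t2)) :
    (t0 = 0 ∧ t1 = 3 ∧ t2 = 8 ∧ t3 = 15) ∨ (t0 = 15 ∧ t1 = 8 ∧ t2 = 3 ∧ t3 = 0) := by
  simp only [mul_eq_zero, sub_eq_zero, or_assoc] at h0 h1 h2 h3
  rcases h0 with rfl | rfl | rfl | rfl <;> rcases h1 with rfl | rfl | rfl | rfl <;>
    rcases h2 with rfl | rfl | rfl | rfl <;> rcases h3 with rfl | rfl | rfl | rfl <;>
      first | (norm_num at hs; done) | (norm_num at hd; done) | simp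

theorem result (K : Type) [Field K] [LinearOrder K] [IsStrictOrderedRing K] :
    ∃ A B : Matrix (Fin 4) (Fin 4) K, LeonardPair A B ∧ BetaTwo A B ∧
      ¬∃ x y z, IrrMod x y z ∧ InSpan A x y ∧ InSpan B y z := by
  have T1 := tr (K := K) P1 A B (by decide +kernel)
  refine ⟨f A, f B, ⟨⟨_, tr P2 B A (by decide +kernel)⟩, _, T1⟩, ⟨_, T1.1, T1.2, ?_⟩, ?_⟩
  · intro i j k l h1 h2 h3
    obtain rfl : i = 0 := by omega
    obtain rfl : j = 1 := by omega
    obtain rfl : k = 2 := by omega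
    obtain rfl : l = 3 := by omega
    rw [inB_f, show inB P1 A = !![0, 0, 0, 0; 0, 3, 0, 0; 0, 0, 8, 0; 0, 0, 0, 15] by
      decide +kernel]
    simp [f]
    norm_num
  rintro ⟨x, y, z, h, ⟨a, b, c, e, hA⟩, a', b', c', e', hB⟩
  obtain ⟨F, h0, hx, hy, hz⟩ := nf x y z h
  have tf : ∀ M : Mt ℚ, (F (f (K := K) M)).trace = algebraMap ℚ K M.trace := fun M => by
    rw [h0]; simp [f, trace, Fin.sum_univ_four]
  obtain ⟨s0, s1, s2, s3, hs, k1, k2⟩ : ∃ s0 s1 s2 s3 : K, F (f A) =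
      !![s0, 0, 0, 0; b + 3 * e, s1, 0, 0; 0, b + e, s2, 0; 0, 0, b - e, s3] ∧
        s0 - s3 = 3 * (s1 - s2) ∧ s0 + s2 - 2 * s1 = -8 * e := by
    refine ⟨a + 3 * (c - b) - 9 * e, a + (c - b) - e, a - (c - b) - e, a - 3 * (c - b) - 9 * e, ?_,
      by ring, by ring⟩
    simp only [hA, map_add, map_smul, map_mul, map_one, hx, hy]
    ext i j; fin_cases i <;> fin_cases j <;> simp <;> ring
  obtain ⟨t0, t1, t2, t3, ht, k3, k4⟩ : ∃ t0 t1 t2 t3 : K, F (f B) =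
      !![t0, -12 * (c' + 3 * e'), 0, 0; 0, t1, -16 * (c' + e'), 0; 0, 0, t2, -12 * (c' - e');
        0, 0, 0, t3] ∧ t0 - t3 = 3 * (t1 - t2) ∧ t0 + t2 - 2 * t1 = -8 * e' := by
    refine ⟨a' + 3 * (b' - c') - 9 * e', a' + (b' - c') - e', a' - (b' - c') - e',
      a' - 3 * (b' - c') - 9 * e', ?_, by ring, by ring⟩
    simp only [hB, map_add, map_smul, map_mul, map_one, hz, hy]
    ext i j; fin_cases i <;> fin_cases j <;> simp <;> ring
  have pA := congrArg (fun M => F (f (K := K) M))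
    (show A * A * A * A + 189 • (A * A) = 26 • (A * A * A) + 360 • A by decide +kernel)
  have pB := congrArg (fun M => F (f (K := K) M))
    (show B * B * B * B + 189 • (B * B) = 26 • (B * B * B) + 360 • B by decide +kernel)
  have u1 := tf A
  have u2 := tf B
  have u3 := tf (A * B)
  have u4 := tf (A * A * B)
  rw [show A.trace = 26 by decide +kernel] at u1
  rw [show B.trace = 26 by decide +kernel] at u2
  rw [show (A * B).trace = 32 by decide +kernel] at u3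
  rw [show (A * A * B).trace = 64 by decide +kernel] at u4
  simp only [map_mul, map_add, map_nsmul, map_ofNat, hs, ht] at pA pB u1 u2 u3 u4
  have q := fun (M N : Mt K) (e : M = N) (i : Fin 4) => congrFun (congrFun e i) i
  have a0 := q _ _ pA 0
  have a1 := q _ _ pA 1
  have a2 := q _ _ pA 2
  have a3 := q _ _ pA 3
  have b0 := q _ _ pB 0
  have b1 := q _ _ pB 1
  have b2 := q _ _ pB 2
  have b3 := q _ _ pB 3
  simp [-mul_eq_zero, Fin.sum_univ_four, trace]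
    at a0 a1 a2 a3 b0 b1 b2 b3 u1 u2 u3 u4
  have g : ∀ s : K, s * s * s * s + 189 * (s * s) = 26 * (s * s * s) + 360 * s →
      s * (s - 3) * (s - 8) * (s - 15) = 0 := fun s h => by linear_combination h
  clear pA pB hs ht hA hB tf hx hy hz
  have he : (b - c') ^ 2 = -1 := by
    rcases ev _ _ _ _ (g _ a0) (g _ a1) (g _ a2) (g _ a3) u1 k1 with
      ⟨rfl, rfl, rfl, rfl⟩ | ⟨rfl, rfl, rfl, rfl⟩ <;>
    rcases ev _ _ _ _ (g _ b0) (g _ b1) (g _ b2) (g _ b3) u2 k3 with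
      ⟨rfl, rfl, rfl, rfl⟩ | ⟨rfl, rfl, rfl, rfl⟩ <;>
    (obtain rfl : e = -1 / 4 := by linarith) <;> (obtain rfl : e' = -1 / 4 := by linarith)
    · obtain rfl : c' = 11 / 2 - b := by linarith
      linarith
    · obtain rfl : c' = 1 / 2 - b := by linarith
      linarith
    · obtain rfl : c' = 1 / 2 - b := by linarith
      linarith
    · obtain rfl : c' = -9 / 2 - b := by linarith
      linarith
  linarith [sq_nonneg (b - c')]

end Pool.Agent.Results.MP_d63bef_al.RealRacah
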